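import Pool.Agent.H31.LEV.Targets

/-!
# Board `lev_modules`: row CAR

Carleman's inequality.
-/

set_option autoImplicit false

open Complex Filter Topology Set

namespace Pool.Agent.H70.LEV

open Pool.Agent.H31.LEV

lemma pt_re (x t : ℝ) : (pt x t).re = x := by
  unfold pt
  simp

lemma pt_im (x t : ℝ) : (pt x t).im = t := by
  unfold pt
  simp

lemma pt_eq (s : ℂ) : pt s.re s.im = s := by
  unfold pt
  exact Complex.re_add_im s

lemma cont_pt (b t₀ : ℝ) : Continuous (fun t : ℝ => pt b (t₀ + t)) := by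
  unfold pt
  fun_prop

/-- the kernel -/
noncomputable def kr (a b t₀ U t : ℝ) : ℂ :=
  sinh (Real.pi * (pt b (t₀ + t) - pt a t₀) / U) * I

/-- the contribution of a zero -/
noncomputable def hz (a t₀ U : ℝ) (ρ : ℂ) : ℝ :=
  2 * U * (Real.sinh (Real.pi * (ρ.re - a) / U) * Real.sin (Real.pi * (ρ.im - t₀) / U))

lemma cont_kr (a b t₀ U : ℝ) : Continuous (fun t : ℝ => kr a b t₀ U t) := by
  unfold kr
  have h := cont_pt b t₀
  have h1 : Continuous (fun t : ℝ => (Real.pi * (pt b (t₀ + t) - pt a t₀) / U : ℂ)) :=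
    (continuous_const.mul (h.sub continuous_const)).div_const _
  exact (Complex.continuous_sinh.comp h1).mul continuous_const

lemma isCompact_Rc (a b c d : ℝ) : IsCompact (Rc a b c d) := by
  have h : Rc a b c d = Icc a b ×ℂ Icc c d := by
    ext s
    unfold Rc
    rw [mem_reProdIm]
    simp only [mem_ofPred_eq, mem_Icc]
    tauto
  rw [h]
  exact isCompact_Icc.reProdIm isCompact_Icc

/-- the integrals over the three sides depend only on the absolute values there -/
lemma Ja_congr (F F' : ℂ → ℂ) (a b t₀ U : ℝ) (hU : 0 < U) (hab : a < b)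
    (h1 : ∀ t : ℝ, 0 ≤ t → t ≤ U → ‖F (pt a (t₀ + t))‖ = ‖F' (pt a (t₀ + t))‖)
    (h2 : ∀ x : ℝ, a ≤ x → x ≤ b → ‖F (pt x t₀)‖ = ‖F' (pt x t₀)‖ ∧
      ‖F (pt x (t₀ + U))‖ = ‖F' (pt x (t₀ + U))‖) :
    Ja F a b t₀ U = Ja F' a b t₀ U := by
  unfold Ja
  congr 1
  · refine intervalIntegral.integral_congr fun t ht => ?_
    rw [uIcc_of_le hU.le] at ht
    rw [h1 t ht.1 ht.2]
  · refine intervalIntegral.integral_congr fun x hx => ?_
    rw [uIcc_of_le hab.le] at hx
    rw [(h2 x hx.1 hx.2).1, (h2 x hx.1 hx.2).2]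

/-- Carleman's formula for a product of linear factors and a function without zeros -/
theorem car_ind (hBLA : T_BLA) (hBLL : T_BLL) (hBLI : T_BLI) (hCZF : T_CZF) (a b t₀ U : ℝ)
    (hU : 0 < U) (hab : a < b) (Z : Multiset ℂ) :
    (∀ ρ ∈ Z, a < ρ.re ∧ ρ.re < b ∧ t₀ < ρ.im ∧ ρ.im < t₀ + U) → ∀ (G : ℂ → ℂ) (V : Set ℂ),
    IsOpen V → Rc a b t₀ (t₀ + U) ⊆ V → DifferentiableOn ℂ G V →
    (∀ z ∈ Rc a b t₀ (t₀ + U), G z ≠ 0) →
    ∃ φ : ℝ → ℂ, ContinuousOn φ (Icc 0 U) ∧
      (∀ t ∈ Icc 0 U, exp (φ t) =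
        (Z.map (fun ρ => pt b (t₀ + t) - ρ)).prod * G (pt b (t₀ + t))) ∧
      Ja (fun s => (Z.map (fun ρ => s - ρ)).prod * G s) a b t₀ U +
        (∫ t in (0 : ℝ)..U, φ t * kr a b t₀ U t).re = (Z.map (hz a t₀ U)).sum := by
  refine Multiset.induction_on Z ?_ ?_
  · intro _ G V hV hRV hG hG0
    obtain ⟨φ, h1, h2, h3⟩ := hCZF G V a b t₀ U hU hab hV hRV hG hG0
    refine ⟨φ, h1, fun t ht => ?_, ?_⟩
    · rw [h2 t ht, Multiset.map_zero, Multiset.prod_zero, one_mul]
    · have h4 : (fun s => ((0 : Multiset ℂ).map (fun ρ => s - ρ)).prod * G s) = G := by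
        funext s
        rw [Multiset.map_zero, Multiset.prod_zero, one_mul]
      rw [h4, Multiset.map_zero, Multiset.sum_zero]
      exact h3
  · intro ρ Z' ih hZ G V hV hRV hG hG0
    obtain ⟨hρ1, hρ2, hρ3, hρ4⟩ := hZ ρ (Multiset.mem_cons_self ρ Z')
    have hZ' : ∀ ρ ∈ Z', a < ρ.re ∧ ρ.re < b ∧ t₀ < ρ.im ∧ ρ.im < t₀ + U :=
      fun σ hσ => hZ σ (Multiset.mem_cons_of_mem hσ)
    obtain ⟨⟨V1, k, hV1o, hV1s, hbld, hkd, hblk, hkne⟩, hbl1, hbl2⟩ :=
      hBLA a t₀ U ρ hU hρ1 hρ3 hρ4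
    have hV2 : IsOpen (V1 ∩ k ⁻¹' {0}ᶜ) :=
      hkd.continuousOn.isOpen_inter_preimage hV1o isOpen_compl_singleton
    have hR1 : Rc a b t₀ (t₀ + U) ⊆ V1 := fun s hs => hV1s s hs.1 hs.2.2.1 hs.2.2.2
    have hR2 : Rc a b t₀ (t₀ + U) ⊆ V ∩ (V1 ∩ k ⁻¹' {0}ᶜ) := fun s hs =>
      ⟨hRV hs, hR1 hs, hkne s hs.1 hs.2.2.1 hs.2.2.2⟩
    have hG' : DifferentiableOn ℂ (fun s => G s / k s) (V ∩ (V1 ∩ k ⁻¹' {0}ᶜ)) :=
      (hG.mono inter_subset_left).div (hkd.mono fun s hs => hs.2.1) fun s hs => hs.2.2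
    have hG0' : ∀ z ∈ Rc a b t₀ (t₀ + U), G z / k z ≠ 0 := fun z hz' =>
      div_ne_zero (hG0 z hz') (hR2 hz').2.2
    obtain ⟨φ', hc, he, hJ⟩ := ih hZ' (fun s => G s / k s) _ (hV.inter hV2) hR2 hG' hG0'
    have key : ∀ s ∈ Rc a b t₀ (t₀ + U), ((ρ ::ₘ Z').map (fun ρ => s - ρ)).prod * G s =
        bl a t₀ U ρ s * ((Z'.map (fun ρ => s - ρ)).prod * (G s / k s)) := by
      intro s hs
      have hk : k s ≠ 0 := (hR2 hs).2.2
      rw [Multiset.map_cons, Multiset.prod_cons, hblk s (hR1 hs)]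
      field_simp
    have hmem : ∀ t ∈ Icc (0 : ℝ) U, pt b (t₀ + t) ∈ Rc a b t₀ (t₀ + U) := by
      intro t ht
      refine ⟨?_, ?_, ?_, ?_⟩
      · rw [pt_re]
        exact hab.le
      · rw [pt_re]
      · rw [pt_im]
        linarith [ht.1]
      · rw [pt_im]
        linarith [ht.2]
    have hsl : ∀ t ∈ Icc (0 : ℝ) U, bl a t₀ U ρ (pt b (t₀ + t)) ∈ slitPlane := by
      intro t ht
      refine hBLL a t₀ U ρ _ hU hρ1 hρ3 hρ4 ?_ ?_ ?_
      · rw [pt_re]
        exact hρ2
      · rw [pt_im]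
        linarith [ht.1]
      · rw [pt_im]
        linarith [ht.2]
    have hlc : ContinuousOn (fun t : ℝ => log (bl a t₀ U ρ (pt b (t₀ + t)))) (Icc 0 U) := by
      refine ContinuousOn.clog ?_ hsl
      exact hbld.continuousOn.comp (cont_pt b t₀).continuousOn fun t ht => hR1 (hmem t ht)
    refine ⟨fun t => φ' t + log (bl a t₀ U ρ (pt b (t₀ + t))), hc.add hlc, fun t ht => ?_, ?_⟩
    · simp only
      rw [Complex.exp_add, he t ht, Complex.exp_log (slitPlane_ne_zero (hsl t ht)),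
        key _ (hmem t ht), mul_comm]
    · have hJJ : Ja (fun s => ((ρ ::ₘ Z').map (fun ρ => s - ρ)).prod * G s) a b t₀ U =
          Ja (fun s => (Z'.map (fun ρ => s - ρ)).prod * (G s / k s)) a b t₀ U := by
        refine Ja_congr _ _ a b t₀ U hU hab ?_ ?_
        · intro t ht0 htU
          have hm : pt a (t₀ + t) ∈ Rc a b t₀ (t₀ + U) := by
            refine ⟨?_, ?_, ?_, ?_⟩
            · rw [pt_re]
            · rw [pt_re]
              exact hab.le
            · rw [pt_im]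
              linarith
            · rw [pt_im]
              linarith
          rw [key _ hm, norm_mul, hbl1 t ht0 htU, one_mul]
        · intro x hxa hxb
          have hm1 : pt x t₀ ∈ Rc a b t₀ (t₀ + U) := by
            refine ⟨?_, ?_, ?_, ?_⟩
            · rw [pt_re]
              exact hxa
            · rw [pt_re]
              exact hxb
            · rw [pt_im]
            · rw [pt_im]
              linarith
          have hm2 : pt x (t₀ + U) ∈ Rc a b t₀ (t₀ + U) := by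
            refine ⟨?_, ?_, ?_, ?_⟩
            · rw [pt_re]
              exact hxa
            · rw [pt_re]
              exact hxb
            · rw [pt_im]
              linarith
            · rw [pt_im]
          constructor
          · rw [key _ hm1, norm_mul, (hbl2 x hxa).1, one_mul]
          · rw [key _ hm2, norm_mul, (hbl2 x hxa).2, one_mul]
      have hi1 : IntervalIntegrable (fun t => φ' t * kr a b t₀ U t) MeasureTheory.volume 0 U :=
        (hc.mul (cont_kr a b t₀ U).continuousOn).intervalIntegrable_of_Icc hU.le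
      have hi2 : IntervalIntegrable (fun t => log (bl a t₀ U ρ (pt b (t₀ + t))) * kr a b t₀ U t)
          MeasureTheory.volume 0 U :=
        (hlc.mul (cont_kr a b t₀ U).continuousOn).intervalIntegrable_of_Icc hU.le
      have hsum : ∫ t in (0 : ℝ)..U, (φ' t + log (bl a t₀ U ρ (pt b (t₀ + t)))) * kr a b t₀ U t =
          (∫ t in (0 : ℝ)..U, φ' t * kr a b t₀ U t) +
            ∫ t in (0 : ℝ)..U, log (bl a t₀ U ρ (pt b (t₀ + t))) * kr a b t₀ U t := by
        rw [← intervalIntegral.integral_add hi1 hi2]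
        refine intervalIntegral.integral_congr fun t _ => ?_
        ring
      have hBI : (∫ t in (0 : ℝ)..U, log (bl a t₀ U ρ (pt b (t₀ + t))) * kr a b t₀ U t).re =
          hz a t₀ U ρ := hBLI a b t₀ U ρ hU hρ1 hρ2 hρ3 hρ4
      rw [hJJ, hsum, Complex.add_re, hBI, Multiset.map_cons, Multiset.sum_cons]
      linarith

/-- the integral of the kernel -/
lemma int_kr (a b t₀ U : ℝ) (hU : 0 < U) :
    ∫ t in (0 : ℝ)..U, kr a b t₀ U t =
      ((-(2 * (U / Real.pi) * Real.cosh (Real.pi * (b - a) / U)) : ℝ) : ℂ) := by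
  have hpi : (Real.pi : ℂ) ≠ 0 := by exact_mod_cast Real.pi_ne_zero
  have hUc : (U : ℂ) ≠ 0 := by exact_mod_cast hU.ne'
  have hder : ∀ t ∈ uIcc (0 : ℝ) U, HasDerivAt
      (fun t : ℝ => (U / Real.pi : ℂ) * cosh (Real.pi * (pt b (t₀ + t) - pt a t₀) / U))
      (kr a b t₀ U t) t := by
    intro t _
    have h0 : HasDerivAt (fun t : ℝ => ((t₀ + t : ℝ) : ℂ)) 1 t := by
      have h := ((hasDerivAt_id t).const_add t₀).ofReal_comp
      simpa using h
    have h1 : HasDerivAt (fun t : ℝ => (Real.pi * (pt b (t₀ + t) - pt a t₀) / U : ℂ))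
        (Real.pi * I / U) t := by
      have h2 : HasDerivAt (fun t : ℝ => pt b (t₀ + t) - pt a t₀) I t := by
        unfold pt
        have h3 := ((h0.mul_const I).const_add (b : ℂ)).sub_const ((a : ℂ) + (t₀ : ℂ) * I)
        rwa [one_mul] at h3
      exact (h2.const_mul (Real.pi : ℂ)).div_const (U : ℂ)
    have h4 := ((Complex.hasDerivAt_cosh _).comp t h1).const_mul (U / Real.pi : ℂ)
    unfold kr
    have h5 : (U / Real.pi : ℂ) * (sinh (Real.pi * (pt b (t₀ + t) - pt a t₀) / U) *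
        (Real.pi * I / U)) = sinh (Real.pi * (pt b (t₀ + t) - pt a t₀) / U) * I := by
      field_simp
    rw [← h5]
    exact h4
  rw [intervalIntegral.integral_eq_sub_of_hasDerivAt hder
    ((cont_kr a b t₀ U).continuousOn.intervalIntegrable)]
  have e1 : (Real.pi * (pt b (t₀ + U) - pt a t₀) / U : ℂ) =
      ((Real.pi * (b - a) / U : ℝ) : ℂ) + Real.pi * I := by
    unfold pt
    push_cast
    field_simp
    ring
  have e2 : (Real.pi * (pt b (t₀ + 0) - pt a t₀) / U : ℂ) = ((Real.pi * (b - a) / U : ℝ) : ℂ) := by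
    unfold pt
    push_cast
    ring
  rw [e1, e2, Complex.cosh_add, Complex.cosh_mul_I, Complex.sinh_mul_I, Complex.cos_pi,
    Complex.sin_pi, ← Complex.ofReal_cosh]
  push_cast
  ring

lemma norm_kr (a b t₀ U t : ℝ) (hU : 0 < U) (hab : a < b) :
    ‖kr a b t₀ U t‖ ≤ Real.exp (Real.pi * (b - a) / U) := by
  unfold kr
  rw [norm_mul, Complex.norm_I, mul_one]
  obtain ⟨w, hw⟩ : ∃ w : ℂ, w = Real.pi * (pt b (t₀ + t) - pt a t₀) / U := ⟨_, rfl⟩
  have hre : w.re = Real.pi * (b - a) / U := by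
    have e : w = ((Real.pi * (b - a) / U : ℝ) : ℂ) + ((Real.pi * t / U : ℝ) : ℂ) * I := by
      rw [hw]
      unfold pt
      push_cast
      ring
    rw [e]
    simp
  rw [← hw, Complex.sinh, norm_div, Complex.norm_ofNat]
  have h1 : ‖cexp w - cexp (-w)‖ ≤ Real.exp w.re + Real.exp (-w.re) := by
    refine (norm_sub_le _ _).trans ?_
    rw [Complex.norm_exp, Complex.norm_exp, Complex.neg_re]
  have hx : 0 ≤ w.re := by
    rw [hre]
    have : 0 < b - a := by linarith
    positivity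
  have h2 : Real.exp (-w.re) ≤ Real.exp w.re := Real.exp_le_exp.2 (by linarith)
  rw [hre] at h1 h2
  rw [div_le_iff₀ (by norm_num)]
  linarith

/-- A continuous function on an interval whose values are integers is constant. -/
lemma int_const (U : ℝ) (hU : 0 < U) (m : ℝ → ℤ)
    (hm : ContinuousOn (fun t => (m t : ℝ)) (Icc 0 U)) : ∀ t ∈ Icc 0 U, m t = m 0 := by
  intro t ht
  have h1 : ContinuousOn m (Icc 0 U) := by
    rw [Int.isClosedEmbedding_coe_real.isEmbedding.isInducing.continuousOn_iff]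
    exact hm
  exact isPreconnected_Icc.constant h1 ht (left_mem_Icc.2 hU.le)

theorem pf_CAR (hFAC : T_FAC) (hBLA : T_BLA) (hBLL : T_BLL) (hBLI : T_BLI) (hCZF : T_CZF) :
    T_CAR := by
  intro F V a b t₀ U δ hU hab hδ0 hδ hV hVp hRV hF hleft hhor hright S hS
  have hnz : ∃ z ∈ V, F z ≠ 0 := by
    refine ⟨pt a t₀, hRV ?_, (hhor a le_rfl hab.le).1⟩
    refine ⟨?_, ?_, ?_, ?_⟩
    · rw [pt_re]
    · rw [pt_re]
      exact hab.le
    · rw [pt_im]
    · rw [pt_im]
      linarith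
  obtain ⟨Z, g, hZR, hZ0, hcount, -, hg, hg0, hfac⟩ :=
    hFAC F V (Rc a b t₀ (t₀ + U)) hV hVp (isCompact_Rc _ _ _ _) hRV hF hnz
  have hZi : ∀ ρ ∈ Z, a < ρ.re ∧ ρ.re < b ∧ t₀ < ρ.im ∧ ρ.im < t₀ + U := by
    intro ρ hρ
    have hR := hZR ρ hρ
    have h0 : F ρ = 0 := (hZ0 ρ hR).1 hρ
    obtain ⟨h1, h2, h3, h4⟩ := hR
    refine ⟨lt_of_le_of_ne h1 fun h => ?_, lt_of_le_of_ne h2 fun h => ?_,
      lt_of_le_of_ne h3 fun h => ?_, lt_of_le_of_ne h4 fun h => ?_⟩
    · have h5 : pt a (t₀ + (ρ.im - t₀)) = ρ := by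
        rw [h, add_sub_cancel]
        exact pt_eq ρ
      exact hleft (ρ.im - t₀) (by linarith) (by linarith) (by rw [h5]; exact h0)
    · have h5 : pt b (t₀ + (ρ.im - t₀)) = ρ := by
        rw [← h, add_sub_cancel]
        exact pt_eq ρ
      have h6 := hright (ρ.im - t₀) (by linarith) (by linarith)
      rw [h5, h0, zero_sub, norm_neg, norm_one] at h6
      linarith
    · have h5 : pt ρ.re t₀ = ρ := by
        rw [h]
        exact pt_eq ρ
      exact (hhor ρ.re h1 h2).1 (by rw [h5]; exact h0)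
    · have h5 : pt ρ.re (t₀ + U) = ρ := by
        rw [← h]
        exact pt_eq ρ
      exact (hhor ρ.re h1 h2).2 (by rw [h5]; exact h0)
  obtain ⟨φ, hφc, hφe, hφJ⟩ := car_ind hBLA hBLL hBLI hCZF a b t₀ U hU hab Z hZi g V hV hRV hg hg0
  have hmemb : ∀ t ∈ Icc (0 : ℝ) U, pt b (t₀ + t) ∈ Rc a b t₀ (t₀ + U) := by
    intro t ht
    refine ⟨?_, ?_, ?_, ?_⟩
    · rw [pt_re]
      exact hab.le
    · rw [pt_re]
    · rw [pt_im]
      linarith [ht.1]
    · rw [pt_im]
      linarith [ht.2]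
  have hJF : Ja (fun s => (Z.map (fun ρ => s - ρ)).prod * g s) a b t₀ U = Ja F a b t₀ U := by
    refine Ja_congr _ _ a b t₀ U hU hab ?_ ?_
    · intro t ht0 htU
      have hm : pt a (t₀ + t) ∈ Rc a b t₀ (t₀ + U) := by
        refine ⟨?_, ?_, ?_, ?_⟩
        · rw [pt_re]
        · rw [pt_re]
          exact hab.le
        · rw [pt_im]
          linarith
        · rw [pt_im]
          linarith
      rw [← hfac _ (hRV hm)]
    · intro x hxa hxb
      have hm1 : pt x t₀ ∈ Rc a b t₀ (t₀ + U) := by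
        refine ⟨?_, ?_, ?_, ?_⟩
        · rw [pt_re]
          exact hxa
        · rw [pt_re]
          exact hxb
        · rw [pt_im]
        · rw [pt_im]
          linarith
      have hm2 : pt x (t₀ + U) ∈ Rc a b t₀ (t₀ + U) := by
        refine ⟨?_, ?_, ?_, ?_⟩
        · rw [pt_re]
          exact hxa
        · rw [pt_re]
          exact hxb
        · rw [pt_im]
          linarith
        · rw [pt_im]
      constructor
      · rw [← hfac _ (hRV hm1)]
      · rw [← hfac _ (hRV hm2)]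
  have hφF : ∀ t ∈ Icc (0 : ℝ) U, exp (φ t) = F (pt b (t₀ + t)) := by
    intro t ht
    rw [hφe t ht, ← hfac _ (hRV (hmemb t ht))]
  -- the logarithm of `F` on the right side
  have hFs : ∀ t ∈ Icc (0 : ℝ) U, F (pt b (t₀ + t)) ∈ slitPlane := by
    intro t ht
    have h1 := hright t ht.1 ht.2
    have h2 : |(F (pt b (t₀ + t)) - 1).re| ≤ 1 / 2 := (Complex.abs_re_le_norm _).trans (h1.trans hδ)
    rw [Complex.sub_re, Complex.one_re] at h2
    left
    linarith [(abs_le.1 h2).1]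
  have hlc : ContinuousOn (fun t : ℝ => log (F (pt b (t₀ + t)))) (Icc 0 U) := by
    refine ContinuousOn.clog ?_ hFs
    exact hF.continuousOn.comp (cont_pt b t₀).continuousOn fun t ht => hRV (hmemb t ht)
  have hint : ∀ t : ℝ, ∃ m : ℤ, t ∈ Icc (0 : ℝ) U →
      φ t = log (F (pt b (t₀ + t))) + m * (2 * Real.pi * I) := by
    intro t
    by_cases ht : t ∈ Icc (0 : ℝ) U
    · have h1 : exp (φ t) = exp (log (F (pt b (t₀ + t)))) := by
        rw [hφF t ht, Complex.exp_log (slitPlane_ne_zero (hFs t ht))]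
      obtain ⟨m, hm⟩ := Complex.exp_eq_exp_iff_exists_int.1 h1
      exact ⟨m, fun _ => hm⟩
    · exact ⟨0, fun h => absurd h ht⟩
  choose m hm using hint
  have hmc : ContinuousOn (fun t => (m t : ℝ)) (Icc 0 U) := by
    have h1 : ContinuousOn (fun t => (φ t - log (F (pt b (t₀ + t)))).im / (2 * Real.pi))
        (Icc 0 U) :=
      (Complex.continuous_im.comp_continuousOn (hφc.sub hlc)).div_const _
    refine h1.congr fun t ht => ?_
    change (m t : ℝ) = (φ t - log (F (pt b (t₀ + t)))).im / (2 * Real.pi)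
    rw [hm t ht]
    have h2 : (log (F (pt b (t₀ + t))) + (m t : ℂ) * (2 * Real.pi * I) -
        log (F (pt b (t₀ + t)))) = ((m t * (2 * Real.pi) : ℝ) : ℂ) * I := by
      push_cast
      ring
    rw [h2, Complex.mul_I_im, Complex.ofReal_re]
    field_simp
  have hk := int_const U hU m hmc
  have hi1 : IntervalIntegrable (fun t => log (F (pt b (t₀ + t))) * kr a b t₀ U t)
      MeasureTheory.volume 0 U :=
    (hlc.mul (cont_kr a b t₀ U).continuousOn).intervalIntegrable_of_Icc hU.le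
  have hi2 : IntervalIntegrable (fun t => ((m 0 : ℂ) * (2 * Real.pi * I)) * kr a b t₀ U t)
      MeasureTheory.volume 0 U :=
    (continuousOn_const.mul (cont_kr a b t₀ U).continuousOn).intervalIntegrable_of_Icc hU.le
  have hI : ∫ t in (0 : ℝ)..U, φ t * kr a b t₀ U t =
      (∫ t in (0 : ℝ)..U, log (F (pt b (t₀ + t))) * kr a b t₀ U t) +
        ((m 0 : ℂ) * (2 * Real.pi * I)) * ∫ t in (0 : ℝ)..U, kr a b t₀ U t := by
    rw [← intervalIntegral.integral_const_mul, ← intervalIntegral.integral_add hi1 hi2]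
    refine intervalIntegral.integral_congr fun t ht => ?_
    rw [uIcc_of_le hU.le] at ht
    change φ t * kr a b t₀ U t = log (F (pt b (t₀ + t))) * kr a b t₀ U t +
      (m 0 : ℂ) * (2 * Real.pi * I) * kr a b t₀ U t
    rw [hm t ht, hk t ht]
    ring
  have hRe : (∫ t in (0 : ℝ)..U, φ t * kr a b t₀ U t).re =
      (∫ t in (0 : ℝ)..U, log (F (pt b (t₀ + t))) * kr a b t₀ U t).re := by
    rw [hI, Complex.add_re, int_kr a b t₀ U hU]
    have h1 : ((m 0 : ℂ) * (2 * Real.pi * I)) *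
        ((-(2 * (U / Real.pi) * Real.cosh (Real.pi * (b - a) / U)) : ℝ) : ℂ) =
        ((m 0 * (2 * Real.pi) * (-(2 * (U / Real.pi) * Real.cosh (Real.pi * (b - a) / U))) : ℝ) : ℂ)
          * I := by
      push_cast
      ring
    rw [h1, Complex.mul_I_re, Complex.ofReal_im, neg_zero, add_zero]
  have hbd : (∫ t in (0 : ℝ)..U, log (F (pt b (t₀ + t))) * kr a b t₀ U t).re ≤
      2 * δ * U * Real.exp (Real.pi * (b - a) / U) := by
    refine (Complex.re_le_norm _).trans ?_
    have h1 : ‖∫ t in (0 : ℝ)..U, log (F (pt b (t₀ + t))) * kr a b t₀ U t‖ ≤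
        (2 * δ * Real.exp (Real.pi * (b - a) / U)) * |U - 0| := by
      refine intervalIntegral.norm_integral_le_of_norm_le_const fun t ht => ?_
      rw [uIoc_of_le hU.le] at ht
      have h2 := hright t ht.1.le ht.2
      have h3 : ‖log (F (pt b (t₀ + t)))‖ ≤ 2 * δ := by
        have h4 := Complex.norm_log_one_add_half_le_self (z := F (pt b (t₀ + t)) - 1) (h2.trans hδ)
        rw [add_sub_cancel] at h4
        linarith
      rw [norm_mul]
      exact mul_le_mul h3 (norm_kr a b t₀ U t hU hab) (norm_nonneg _) (by linarith)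
    rw [sub_zero, abs_of_pos hU] at h1
    refine h1.trans (le_of_eq ?_)
    ring
  rw [hJF, hRe] at hφJ
  have hmain : (Z.map (hz a t₀ U)).sum ≤
      Ja F a b t₀ U + 2 * δ * U * Real.exp (Real.pi * (b - a) / U) := by
    rw [← hφJ]
    linarith
  refine le_trans ?_ hmain
  -- the sum over `S`
  classical
  have hh0 : ∀ ρ : ℂ, a ≤ ρ.re → t₀ ≤ ρ.im → ρ.im ≤ t₀ + U → 0 ≤ hz a t₀ U ρ := by
    intro ρ h1 h2 h3
    unfold hz
    refine mul_nonneg (by linarith) (mul_nonneg ?_ ?_)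
    · refine Real.sinh_nonneg_iff.2 ?_
      have : 0 ≤ ρ.re - a := by linarith
      positivity
    · refine Real.sin_nonneg_of_nonneg_of_le_pi ?_ ?_
      · have : 0 ≤ ρ.im - t₀ := by linarith
        positivity
      · rw [div_le_iff₀ hU]
        exact mul_le_mul_of_nonneg_left (by linarith) Real.pi_pos.le
  have hle : ∀ ρ ∈ S, 2 * Real.pi * ((analyticOrderNatAt F ρ : ℝ) * ((ρ.re - a) *
      Real.sin (Real.pi * (ρ.im - t₀) / U))) ≤ (Z.count ρ : ℝ) * hz a t₀ U ρ := by
    intro ρ hρ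
    obtain ⟨h1, h2, h3, h4⟩ := hS ρ hρ
    rw [hcount ρ ⟨h1.le, h2.le, h3.le, h4.le⟩]
    have h5 : 0 ≤ Real.sin (Real.pi * (ρ.im - t₀) / U) := by
      refine Real.sin_nonneg_of_nonneg_of_le_pi ?_ ?_
      · have : 0 ≤ ρ.im - t₀ := by linarith
        positivity
      · rw [div_le_iff₀ hU]
        exact mul_le_mul_of_nonneg_left (by linarith) Real.pi_pos.le
    have h6 : Real.pi * (ρ.re - a) / U ≤ Real.sinh (Real.pi * (ρ.re - a) / U) := by
      refine Real.self_le_sinh_iff.2 ?_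
      have : 0 ≤ ρ.re - a := by linarith
      positivity
    have h7 : Real.pi * (ρ.re - a) ≤ U * Real.sinh (Real.pi * (ρ.re - a) / U) := by
      rw [div_le_iff₀ hU] at h6
      linarith
    have h8 : 2 * Real.pi * ((ρ.re - a) * Real.sin (Real.pi * (ρ.im - t₀) / U)) ≤
        hz a t₀ U ρ := by
      unfold hz
      have h9 := mul_le_mul_of_nonneg_right h7 h5
      nlinarith
    have h10 : (0 : ℝ) ≤ (analyticOrderNatAt F ρ : ℝ) := Nat.cast_nonneg _
    have h11 := mul_le_mul_of_nonneg_left h8 h10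
    linarith
  have hsumZ : (Z.map (hz a t₀ U)).sum = ∑ ρ ∈ Z.toFinset, (Z.count ρ : ℝ) * hz a t₀ U ρ := by
    rw [Finset.sum_multiset_map_count]
    refine Finset.sum_congr rfl fun ρ _ => ?_
    rw [nsmul_eq_mul]
  calc 2 * Real.pi * ∑ ρ ∈ S, (analyticOrderNatAt F ρ : ℝ) * ((ρ.re - a) *
        Real.sin (Real.pi * (ρ.im - t₀) / U))
      ≤ ∑ ρ ∈ S, (Z.count ρ : ℝ) * hz a t₀ U ρ := by
        rw [Finset.mul_sum]
        exact Finset.sum_le_sum hle
    _ = ∑ ρ ∈ S.filter (fun ρ => ρ ∈ Z.toFinset), (Z.count ρ : ℝ) * hz a t₀ U ρ := by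
        rw [Finset.sum_filter]
        refine Finset.sum_congr rfl fun ρ _ => ?_
        split_ifs with h
        · rfl
        · rw [Multiset.mem_toFinset] at h
          rw [Multiset.count_eq_zero_of_notMem h, Nat.cast_zero, zero_mul]
    _ ≤ ∑ ρ ∈ Z.toFinset, (Z.count ρ : ℝ) * hz a t₀ U ρ := by
        refine Finset.sum_le_sum_of_subset_of_nonneg ?_ ?_
        · intro ρ hρ
          exact (Finset.mem_filter.1 hρ).2
        · intro ρ hρ _
          obtain ⟨h1, -, h3, h4⟩ := hZi ρ (Multiset.mem_toFinset.1 hρ)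
          exact mul_nonneg (Nat.cast_nonneg _) (hh0 ρ h1.le h3.le h4.le)
    _ = (Z.map (hz a t₀ U)).sum := hsumZ.symm

end Pool.Agent.H70.LEV
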